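import Pool.Agent.Q284.PX.Stm
import Pool.Agent.Q277.PS.Fac

/-!
# Project PX (helper284): job PX-DEC2
-/

set_option autoImplicit false

open Finset Polynomial ComplexConjugate
open Pool.Agent.H341R2.Sharp (Mon mem_Mon)

namespace Pool.Agent.Q277.PX

open Pool.Agent.Q284.PS Pool.Agent.Q284.PX Pool.Agent.Q277.PS UniqueFactorizationMonoid

section mul

variable {F : Type} [Field F]

open Classical in
theorem AF_irr (v : F[X] → ℕ → ℝ) (P : F[X]) (hP : P.Monic)
    (hI : Irreducible P) : AF v P = v P 1 := by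
  unfold AF
  rw [normalizedFactors_irreducible hI, hP.normalize_eq_self, Multiset.toFinset_singleton,
    Finset.prod_singleton, Multiset.count_singleton_self]

open Classical in
theorem AF_mul (v : F[X] → ℕ → ℝ) (f g : F[X]) (hf : f ≠ 0) (hg : g ≠ 0)
    (hfg : IsCoprime f g) : AF v (f * g) = AF v f * AF v g := by
  unfold AF
  rw [normalizedFactors_mul hf hg, Multiset.toFinset_add]
  have hdis : ∀ P, P ∈ normalizedFactors f → P ∉ normalizedFactors g := by
    intro P h1 h2
    have h3 := dvd_of_mem_normalizedFactors h1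
    have h4 := dvd_of_mem_normalizedFactors h2
    exact (nf_mem h1).2.not_isUnit (hfg.isUnit_of_dvd' h3 h4)
  rw [Finset.prod_union]
  · congr 1
    · refine Finset.prod_congr rfl fun P hP => ?_
      rw [Multiset.mem_toFinset] at hP
      rw [Multiset.count_add, Multiset.count_eq_zero_of_notMem (hdis P hP), add_zero]
    · refine Finset.prod_congr rfl fun P hP => ?_
      rw [Multiset.mem_toFinset] at hP
      have : P ∉ normalizedFactors f := fun h => hdis P h hP
      rw [Multiset.count_add, Multiset.count_eq_zero_of_notMem this, zero_add]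
  · rw [Finset.disjoint_left]
    intro P h1 h2
    rw [Multiset.mem_toFinset] at h1 h2
    exact hdis P h1 h2

end mul

section dec

variable {F : Type} [Field F] [Fintype F]

open Classical in
theorem t_DEC2 : S_DEC2 := by
  intro F _ _ v χ hv hχ n hn
  have hsplit : ef v χ n = ∑ f ∈ (Mon F n).filter
      (fun f => ¬ ∀ P : F[X], P.Monic → Irreducible P → P ∣ f → 2 * P.natDegree ≤ n),
      (AF v f : ℂ) * χ f + ∑ f ∈ Sm F n, (AF v f : ℂ) * χ f := by
    unfold ef Sm
    rw [← Finset.sum_filter_add_sum_filter_not (Mon F n)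
      (fun f => ∀ P : F[X], P.Monic → Irreducible P → P ∣ f → 2 * P.natDegree ≤ n), add_comm]
  rw [hsplit]
  congr 1
  symm
  have hR : ∑ i ∈ (range n).filter (fun i => 2 * i < n), ef v χ i * sv v χ (n - i) =
      ∑ x ∈ ((range n).filter (fun i => 2 * i < n)).sigma
        (fun i => (Mon F i) ×ˢ (PI F (n - i))),
        ((AF v x.2.1 : ℂ) * χ x.2.1) * ((v x.2.2 1 : ℂ) * χ x.2.2) := by
    rw [Finset.sum_sigma]
    refine Finset.sum_congr rfl fun i _ => ?_
    unfold ef sv
    rw [Finset.sum_mul_sum, Finset.sum_product]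
  rw [hR]
  refine Finset.sum_bij (fun x _ => x.2.1 * x.2.2) ?_ ?_ ?_ ?_
  · rintro ⟨i, g, P⟩ hx
    simp only [Finset.mem_sigma, Finset.mem_filter, Finset.mem_range, Finset.mem_product,
      mem_Mon, mem_PI] at hx ⊢
    obtain ⟨⟨h1, h2⟩, ⟨h3, h4⟩, h5, h6, h7⟩ := hx
    refine ⟨⟨h3.mul h5, ?_⟩, ?_⟩
    · rw [h3.natDegree_mul h5, h4, h6]
      omega
    · intro h
      have := h P h5 h7 (dvd_mul_left _ _)
      omega
  · rintro ⟨i, g, P⟩ hx ⟨i', g', P'⟩ hx' heq
    simp only [Finset.mem_sigma, Finset.mem_filter, Finset.mem_range, Finset.mem_product,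
      mem_Mon, mem_PI] at hx hx' heq
    obtain ⟨⟨h1, h2⟩, ⟨h3, h4⟩, h5, h6, h7⟩ := hx
    obtain ⟨⟨k1, k2⟩, ⟨k3, k4⟩, k5, k6, k7⟩ := hx'
    have hdv : P ∣ g' * P' := by rw [← heq]; exact dvd_mul_left _ _
    have hPP : P = P' := by
      rcases h7.prime.dvd_or_dvd hdv with h | h
      · exfalso
        have := natDegree_le_of_dvd h k3.ne_zero
        have h8 : P.natDegree = n - i := h6
        rw [k4] at this
        omega
      · exact mirr_eq h5 k5 h7 k7 h
    subst hPP
    have hgg : g = g' := mul_right_cancel₀ h5.ne_zero heq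
    subst hgg
    have : i = i' := by rw [← h4, k4]
    subst this
    rfl
  · intro f hf
    simp only [Finset.mem_filter, mem_Mon] at hf
    obtain ⟨⟨hm, hdeg⟩, hnot⟩ := hf
    push Not at hnot
    obtain ⟨P, hP, hI, ⟨g, hg⟩, h2⟩ := hnot
    have hgm : g.Monic := by
      have : (P * g).Monic := by rw [← hg]; exact hm
      exact hP.of_mul_monic_left this
    have hd2 : P.natDegree + g.natDegree = n := by
      rw [← hdeg, hg, hP.natDegree_mul hgm]
    have hd3 : 0 < P.natDegree := hI.natDegree_pos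
    refine ⟨⟨g.natDegree, g, P⟩, ?_, ?_⟩
    · simp only [Finset.mem_sigma, Finset.mem_filter, Finset.mem_range, Finset.mem_product,
        mem_Mon, mem_PI]
      exact ⟨⟨by omega, by omega⟩, ⟨hgm, trivial⟩, hP, by omega, hI⟩
    · show g * P = f
      rw [hg, mul_comm]
  · rintro ⟨i, g, P⟩ hx
    simp only [Finset.mem_sigma, Finset.mem_filter, Finset.mem_range, Finset.mem_product,
      mem_Mon, mem_PI] at hx ⊢
    obtain ⟨⟨h1, h2⟩, ⟨h3, h4⟩, h5, h6, h7⟩ := hx
    have hcop : IsCoprime g P := by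
      refine ((h7.coprime_iff_not_dvd).2 fun h => ?_).symm
      have := natDegree_le_of_dvd h h3.ne_zero
      rw [h4] at this
      omega
    rw [AF_mul v g P h3.ne_zero h5.ne_zero hcop, AF_irr v P h5 h7, hχ.2 g P h3 h5]
    push_cast
    ring

end dec

end Pool.Agent.Q277.PX
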