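import Pool.Agent.Q277.PX.GBb

/-!
# Project PX (helper284): job PX-EBb
-/

set_option autoImplicit false

open Finset Polynomial ComplexConjugate
open Pool.Agent.H341R2.Sharp (Mon mem_Mon)

namespace Pool.Agent.Q277.PX

open Pool.Agent.Q284.PS Pool.Agent.Q284.PX Pool.Agent.Q24.PS

theorem l2n_const {ι : Type} [Fintype ι] (v : ι → ℂ) (C : ℝ) (hC : 0 ≤ C) (h : ∀ i, ‖v i‖ ≤ C) :
    l2n v ≤ Real.sqrt (Fintype.card ι) * C := by
  unfold l2n
  have h1 : ∑ i, ‖v i‖ ^ 2 ≤ (Fintype.card ι : ℝ) * C ^ 2 := by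
    calc ∑ i, ‖v i‖ ^ 2 ≤ ∑ _i : ι, C ^ 2 :=
          sum_le_sum fun i _ => pow_le_pow_left₀ (norm_nonneg _) (h i) 2
      _ = _ := by simp
  calc Real.sqrt (∑ i, ‖v i‖ ^ 2) ≤ Real.sqrt ((Fintype.card ι : ℝ) * C ^ 2) := Real.sqrt_le_sqrt h1
    _ = _ := by rw [Real.sqrt_mul (Nat.cast_nonneg _), Real.sqrt_sq hC]

section main

variable {F : Type} [Field F] [Fintype F]

theorem ef_zero (v : F[X] → ℕ → ℝ) {χ : F[X] → ℂ} (h : χ 1 = 1) : ef v χ 0 = 1 := by
  unfold ef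
  rw [Mon_zero, sum_singleton, h, mul_one, AF_one]
  norm_num

theorem ef_le {v : F[X] → ℕ → ℝ} {χ : F[X] → ℂ} (hχ : ∀ f, ‖χ f‖ ≤ 1) (n : ℕ) :
    ‖ef v χ n‖ ≤ ∑ f ∈ Mon F n, |AF v f| := by
  unfold ef
  refine (norm_sum_le _ _).trans (sum_le_sum fun f _ => ?_)
  rw [norm_mul, Complex.norm_real, Real.norm_eq_abs]
  exact mul_le_of_le_one_right (abs_nonneg _) (hχ f)

end main

theorem t_EBb : S_EBa → S_GBa → S_P0R → S_EBb := by
  rintro ⟨d₁, D₂, hEB⟩ ⟨d₀, hGB⟩ hP0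
  refine ⟨max (max d₀ d₁) 1, 4 * D₂ + 4, fun d hd => ?_⟩
  have hd0 : d₀ ≤ d := ((le_max_left _ _).trans (le_max_left _ _)).trans hd
  have hd01 : d₁ ≤ d := ((le_max_right _ _).trans (le_max_left _ _)).trans hd
  have hd1 : 1 ≤ d := (le_max_right _ _).trans hd
  have hdp : (0 : ℝ) < d := by exact_mod_cast hd1
  obtain ⟨m₀, hm₀, hkey⟩ := key d hd1
  refine ⟨m₀, fun F _ _ hchar K h hK hL N P₀ g a hS hG n hn hnN R ι _ χ hχ hR hcard => ?_⟩
  have hF := three_of_char hchar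
  have hq : 3 ≤ qq F := by
    unfold qq
    exact_mod_cast hF
  have hqp : 0 < qq F := by linarith
  have hB : 0 < BB := by
    unfold BB
    norm_num
  obtain ⟨q, hqdef⟩ : ∃ q, q = qq F := ⟨_, rfl⟩
  obtain ⟨m, hmdef⟩ : ∃ m, m = P₀.natDegree := ⟨_, rfl⟩
  have hmm : m₀ ≤ m := hmdef ▸ hS.deg
  have hgb := hS.bound
  have hform : ∀ i, ef (Lo h P₀ g a) (χ i) n =
      ∑ k ∈ (range (n + 1)).filter (fun k => k * m ≤ n),
        (g k : ℂ) * χ i P₀ ^ k * ef (Lo h P₀ g0 a) (χ i) (n - k * m) := by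
    intro i
    obtain ⟨Q, l, hH, -⟩ := hχ.lev i
    have := (hP0 F h P₀ g a hL.zero hS.monic hS.irr hS.zero n).1 (χ i) ⟨hH.one, hH.mul⟩
    rw [← hmdef] at this
    exact this
  rw [← hqdef, ← hmdef] at hgb
  rw [← hqdef] at hq hqp hcard ⊢
  have hw := w2_nonneg hqp d n
  have hnp : (0 : ℝ) < n := by exact_mod_cast hn
  have hχ1 : ∀ i f, ‖χ i f‖ ≤ 1 := by
    intro i f
    obtain ⟨Q, l, hH, _⟩ := hχ.lev i
    exact hay_le hH f
  have hone : ∀ i, χ i 1 = 1 := by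
    intro i
    obtain ⟨Q, l, hH, _⟩ := hχ.lev i
    exact hH.one
  have hT : ∀ i : ℕ, 1 ≤ i → i ≤ N → ∑ f ∈ Mon F i, |AF (Lo h P₀ g0 a) f| ≤ 5 / 2 * BB * w2 q d i := by
    intro i h1 h2
    rw [hqdef]
    exact (hGB d hd0 F hF K h hK hL N P₀ a hG i h1 h2).1
  have hE : ∀ i : ℕ, 1 ≤ i → i ≤ N → D₂ * (R + 1) ≤ i →
      l2n (fun j => sf a (χ j) i) ≤ 3 / 2 * BB * w2 q d i ∧
      l2n (fun j => ef (Lo h P₀ g0 a) (χ j) i - sf a (χ j) i) ≤ 1 / 50 * BB * w2 q d i := by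
    intro i h1 h2 h3
    rw [hqdef]
    exact hEB d hd01 F hchar K h hK hL N P₀ a hG i h1 h2 R ι χ hχ h3
  have hsq : Real.sqrt (Fintype.card ι) ≤ 2 * q ^ ((20 : ℝ) * n / (9 * d)) := by
    rw [Real.sqrt_le_left (by positivity)]
    refine hcard.trans (le_of_eq ?_)
    rw [mul_pow, ← Real.rpow_natCast (q ^ ((20 : ℝ) * n / (9 * d))) 2, ← Real.rpow_mul hqp.le]
    congr 1
    · norm_num
    · congr 1
      push_cast
      field_simp
      ring
  obtain ⟨s, hs⟩ : ∃ s, s = (range (n + 1)).filter (fun k => k * m ≤ n) := ⟨_, rfl⟩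
  have h0s : 0 ∈ s := by
    rw [hs, mem_filter, mem_range]
    omega
  have hsplit : ∀ i, ef (Lo h P₀ g a) (χ i) n - sf a (χ i) n =
      (ef (Lo h P₀ g0 a) (χ i) n - sf a (χ i) n) +
      ∑ k ∈ s.erase 0, (g k : ℂ) * χ i P₀ ^ k * ef (Lo h P₀ g0 a) (χ i) (n - k * m) := by
    intro i
    rw [hform i, ← hs, ← add_sum_erase s _ h0s, hS.zero]
    simp only [zero_mul, Nat.sub_zero, pow_zero, Complex.ofReal_one, one_mul]
    ring
  have hterm : ∀ k ∈ s.erase 0, 1 ≤ k → |g k| * l2n (fun j => ef (Lo h P₀ g0 a) (χ j) (n - k * m)) ≤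
      (BB * w2 q d n) * (1 / 200 * (1 / 2 : ℝ) ^ k) := by
    intro k hk hk1
    rw [hs, mem_erase, mem_filter, mem_range] at hk
    obtain ⟨-, -, hk2⟩ := hk
    have hb := hgb k
    obtain ⟨u, hu⟩ : ∃ u : ℕ, u = k * m := ⟨_, rfl⟩
    have hu2 : ((k : ℝ) * m) = (u : ℝ) := by rw [hu]; push_cast; ring
    rw [hu2] at hb
    rw [← hu] at hk2 ⊢
    have hk3 := hkey q hq m k hmm hk1 u (by rw [hu])
    have hk4 := hkey q hq m k hmm hk1 n (by rw [← hu]; exact hk2)
    have hup : (0 : ℝ) ≤ u := Nat.cast_nonneg _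
    have hhk : (0 : ℝ) < (1 / 2 : ℝ) ^ k := by positivity
    rcases Nat.eq_zero_or_pos (n - u) with h0 | h0
    · -- case (C)
      have hun : u = n := by omega
      rw [h0]
      have h1 : l2n (fun j => ef (Lo h P₀ g0 a) (χ j) 0) ≤ Real.sqrt (Fintype.card ι) * 1 := by
        refine l2n_const _ 1 (by norm_num) fun j => ?_
        rw [ef_zero _ (hone j), norm_one]
      rw [hun] at hb
      have h2 : |g k| * l2n (fun j => ef (Lo h P₀ g0 a) (χ j) 0) ≤
          q ^ ((1 - 11 / (2 * (d : ℝ))) * (n : ℝ)) * (2 * q ^ ((20 : ℝ) * n / (9 * d))) := by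
        refine mul_le_mul hb (h1.trans ?_) (Real.sqrt_nonneg _) (by positivity)
        rw [mul_one]
        exact hsq
      rw [w2_zero hqp hd1 hn] at h2
      have h3 : (n : ℝ) ^ ((5 : ℝ) / 2) ≤ (1 + (n : ℝ)) ^ ((5 : ℝ) / 2) :=
        Real.rpow_le_rpow hnp.le (by linarith) (by norm_num)
      have h4 : q ^ (-(3 * (n : ℝ) / d)) * q ^ ((20 : ℝ) * n / (9 * d)) ≤ q ^ (-((n : ℝ) / (36 * d))) := by
        rw [← Real.rpow_add hqp]
        refine Real.rpow_le_rpow_of_exponent_le (by linarith) ?_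
        have h5 : -(3 * (n : ℝ) / d) + (20 : ℝ) * n / (9 * d) = -(28 * (n : ℝ) / (36 * d)) := by
          field_simp
          ring
        rw [h5, neg_le_neg_iff]
        exact div_le_div_of_nonneg_right (by linarith) (by positivity)
      have h6 : (n : ℝ) ^ ((5 : ℝ) / 2) * (q ^ (-(3 * (n : ℝ) / d)) * q ^ ((20 : ℝ) * n / (9 * d))) ≤
          1 / 10 ^ 8 * (1 / 2 : ℝ) ^ k := by
        have h7 : (n : ℝ) ^ ((5 : ℝ) / 2) * (q ^ (-(3 * (n : ℝ) / d)) * q ^ ((20 : ℝ) * n / (9 * d))) ≤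
            (1 + (n : ℝ)) ^ ((5 : ℝ) / 2) * q ^ (-((n : ℝ) / (36 * d))) :=
          mul_le_mul h3 h4 (by positivity) (by positivity)
        nlinarith
      calc _ ≤ _ := h2
        _ = w2 q d n * (2 * ((n : ℝ) ^ ((5 : ℝ) / 2) *
            (q ^ (-(3 * (n : ℝ) / d)) * q ^ ((20 : ℝ) * n / (9 * d))))) := by ring
        _ ≤ w2 q d n * (2 * (1 / 10 ^ 8 * (1 / 2 : ℝ) ^ k)) :=
            mul_le_mul_of_nonneg_left (by linarith) hw
        _ ≤ w2 q d n * (BB * (1 / 200 * (1 / 2 : ℝ) ^ k)) := by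
            refine mul_le_mul_of_nonneg_left ?_ hw
            unfold BB
            linarith
        _ = _ := by ring
    · obtain ⟨i, hi⟩ : ∃ i : ℕ, i = n - u := ⟨_, rfl⟩
      have hin : n = i + u := by omega
      rw [← hi] at h0 ⊢
      have hip : (0 : ℝ) < i := by exact_mod_cast h0
      have hip1 : (1 : ℝ) ≤ i := by exact_mod_cast h0
      have hwi := w2_nonneg hqp d i
      have h2 := w2_shift (d := d) (u := u) hqp hd1 (show 1 ≤ i from h0)
      rw [← hin] at h2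
      have h7 : 0 ≤ BB * w2 q d n := by positivity
      have h8 : 0 ≤ BB * w2 q d n * (1 / 2 : ℝ) ^ k := by positivity
      by_cases h4i : n ≤ 4 * i
      · -- case (A)
        have hDi : D₂ * (R + 1) ≤ i := by
          have : 4 * (D₂ * (R + 1)) ≤ n := by nlinarith
          omega
        obtain ⟨e1, e2⟩ := hE i h0 (by omega) hDi
        have e3 : l2n (fun j => ef (Lo h P₀ g0 a) (χ j) i) ≤ 2 * BB * w2 q d i := by
          have e4 := l2n_add (fun j => sf a (χ j) i) (fun j => ef (Lo h P₀ g0 a) (χ j) i - sf a (χ j) i)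
          have e5 : (fun j => sf a (χ j) i + (ef (Lo h P₀ g0 a) (χ j) i - sf a (χ j) i)) =
              fun j => ef (Lo h P₀ g0 a) (χ j) i := by
            funext j
            ring
          rw [e5] at e4
          have e6 : 0 ≤ BB * w2 q d i := by positivity
          linarith
        have h1 : |g k| * l2n (fun j => ef (Lo h P₀ g0 a) (χ j) i) ≤
            q ^ ((1 - 11 / (2 * (d : ℝ))) * (u : ℝ)) * (2 * BB * w2 q d i) :=
          mul_le_mul hb e3 (Real.sqrt_nonneg _) (by positivity)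
        have h36 : q ^ (-(3 * (u : ℝ) / d)) ≤ q ^ (-((u : ℝ) / (36 * d))) := by
          refine Real.rpow_le_rpow_of_exponent_le (by linarith) ?_
          rw [neg_le_neg_iff, div_le_div_iff₀ (by positivity) hdp]
          nlinarith [mul_nonneg hup hdp.le]
        have h3 : (((i + u : ℕ) : ℝ) / i) ^ ((5 : ℝ) / 2) ≤ (1 + (u : ℝ)) ^ ((5 : ℝ) / 2) := by
          refine Real.rpow_le_rpow (by positivity) ?_ (by norm_num)
          rw [div_le_iff₀ hip]
          push_cast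
          nlinarith
        have h4 : q ^ (-(3 * (u : ℝ) / d)) * (((n : ℕ) : ℝ) / i) ^ ((5 : ℝ) / 2) ≤
            1 / 10 ^ 8 * (1 / 2 : ℝ) ^ k := by
          rw [← hin] at h3
          have h5 : q ^ (-(3 * (u : ℝ) / d)) * (((n : ℕ) : ℝ) / i) ^ ((5 : ℝ) / 2) ≤
              q ^ (-((u : ℝ) / (36 * d))) * (1 + (u : ℝ)) ^ ((5 : ℝ) / 2) :=
            mul_le_mul h36 h3 (by positivity) (by positivity)
          nlinarith
        calc _ ≤ _ := h1
          _ = 2 * BB * (q ^ ((1 - 11 / (2 * (d : ℝ))) * (u : ℝ)) * w2 q d i) := by ring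
          _ = 2 * BB * w2 q d n * (q ^ (-(3 * (u : ℝ) / d)) * ((n : ℝ) / i) ^ ((5 : ℝ) / 2)) := by
              rw [h2]
              ring
          _ ≤ 2 * BB * w2 q d n * (1 / 10 ^ 8 * (1 / 2 : ℝ) ^ k) :=
              mul_le_mul_of_nonneg_left h4 (by positivity)
          _ ≤ _ := by nlinarith
      · -- case (B)
        push Not at h4i
        have e3 : l2n (fun j => ef (Lo h P₀ g0 a) (χ j) i) ≤
            Real.sqrt (Fintype.card ι) * (5 / 2 * BB * w2 q d i) :=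
          l2n_const _ _ (by positivity) fun j => (ef_le (hχ1 j) i).trans (hT i h0 (by omega))
        have e4 : l2n (fun j => ef (Lo h P₀ g0 a) (χ j) i) ≤
            2 * q ^ ((20 : ℝ) * n / (9 * d)) * (5 / 2 * BB * w2 q d i) :=
          e3.trans (mul_le_mul_of_nonneg_right hsq (by positivity))
        have h1 : |g k| * l2n (fun j => ef (Lo h P₀ g0 a) (χ j) i) ≤
            q ^ ((1 - 11 / (2 * (d : ℝ))) * (u : ℝ)) *
              (2 * q ^ ((20 : ℝ) * n / (9 * d)) * (5 / 2 * BB * w2 q d i)) :=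
          mul_le_mul hb e4 (Real.sqrt_nonneg _) (by positivity)
        have h3 : ((n : ℝ) / i) ^ ((5 : ℝ) / 2) ≤ (1 + (n : ℝ)) ^ ((5 : ℝ) / 2) := by
          refine Real.rpow_le_rpow (by positivity) ?_ (by norm_num)
          rw [div_le_iff₀ hip]
          nlinarith
        have h4 : q ^ (-(3 * (u : ℝ) / d)) * q ^ ((20 : ℝ) * n / (9 * d)) ≤
            q ^ (-((n : ℝ) / (36 * d))) := by
          rw [← Real.rpow_add hqp]
          refine Real.rpow_le_rpow_of_exponent_le (by linarith) ?_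
          have hu4 : 3 * (n : ℝ) ≤ 4 * u := by
            have : 3 * n ≤ 4 * u := by omega
            exact_mod_cast this
          have h5 : -(3 * (u : ℝ) / d) + (20 : ℝ) * n / (9 * d) = -((108 * (u : ℝ) - 80 * n) / (36 * d)) := by
            field_simp
            ring
          rw [h5, neg_le_neg_iff]
          exact div_le_div_of_nonneg_right (by linarith) (by positivity)
        have h6 : (q ^ (-(3 * (u : ℝ) / d)) * q ^ ((20 : ℝ) * n / (9 * d))) * ((n : ℝ) / i) ^ ((5 : ℝ) / 2) ≤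
            1 / 10 ^ 8 * (1 / 2 : ℝ) ^ k := by
          have h7 : (q ^ (-(3 * (u : ℝ) / d)) * q ^ ((20 : ℝ) * n / (9 * d))) * ((n : ℝ) / i) ^ ((5 : ℝ) / 2) ≤
              q ^ (-((n : ℝ) / (36 * d))) * (1 + (n : ℝ)) ^ ((5 : ℝ) / 2) :=
            mul_le_mul h4 h3 (by positivity) (by positivity)
          nlinarith
        calc _ ≤ _ := h1
          _ = 5 * BB * (q ^ ((1 - 11 / (2 * (d : ℝ))) * (u : ℝ)) * w2 q d i) * q ^ ((20 : ℝ) * n / (9 * d)) := by
              ring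
          _ = 5 * BB * w2 q d n * ((q ^ (-(3 * (u : ℝ) / d)) * q ^ ((20 : ℝ) * n / (9 * d))) *
                ((n : ℝ) / i) ^ ((5 : ℝ) / 2)) := by
              rw [h2]
              ring
          _ ≤ 5 * BB * w2 q d n * (1 / 10 ^ 8 * (1 / 2 : ℝ) ^ k) :=
              mul_le_mul_of_nonneg_left h6 (by positivity)
          _ ≤ _ := by nlinarith
  -- assembly
  have hlast : ∑ k ∈ s.erase 0, |g k| * l2n (fun j => ef (Lo h P₀ g0 a) (χ j) (n - k * m)) ≤
      (BB * w2 q d n) * (1 / 200 + 1 / 200) := by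
    have h1 := geo (s.erase 0) n ((erase_subset _ _).trans (hs ▸ filter_subset _ _))
      (fun k => if k = 0 then 0 else |g k| * l2n (fun j => ef (Lo h P₀ g0 a) (χ j) (n - k * m)))
      (BB * w2 q d n) (1 / 200) (1 / 200) (by positivity) (by norm_num) (le_refl _)
      (by
        rw [if_pos rfl]
        positivity)
      (by
        intro k hk hk1
        rw [if_neg (by omega)]
        exact hterm k hk hk1)
    refine le_trans (le_of_eq ?_) h1
    refine sum_congr rfl fun k hk => ?_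
    rw [mem_erase] at hk
    rw [if_neg hk.1]
  show l2n (fun i => ef (Lo h P₀ g a) (χ i) n - sf a (χ i) n) ≤ _
  have h0 : (fun i => ef (Lo h P₀ g a) (χ i) n - sf a (χ i) n) = fun i =>
      (ef (Lo h P₀ g0 a) (χ i) n - sf a (χ i) n) +
      ∑ k ∈ s.erase 0, (g k : ℂ) * χ i P₀ ^ k * ef (Lo h P₀ g0 a) (χ i) (n - k * m) := by
    funext i
    exact hsplit i
  rw [h0]
  refine (l2n_add _ _).trans ?_
  have hA := (hE n hn hnN (by nlinarith)).2
  have hBd : l2n (fun i => ∑ k ∈ s.erase 0, (g k : ℂ) * χ i P₀ ^ k *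
      ef (Lo h P₀ g0 a) (χ i) (n - k * m)) ≤
      ∑ k ∈ s.erase 0, |g k| * l2n (fun j => ef (Lo h P₀ g0 a) (χ j) (n - k * m)) := by
    refine (l2n_sum _ (fun k i => (g k : ℂ) * χ i P₀ ^ k * ef (Lo h P₀ g0 a) (χ i) (n - k * m))).trans ?_
    refine sum_le_sum fun k _ => ?_
    refine l2n_mul_le (fun i => (g k : ℂ) * χ i P₀ ^ k) (fun i => ef (Lo h P₀ g0 a) (χ i) (n - k * m))
      _ (abs_nonneg _) fun i => ?_
    rw [norm_mul, Complex.norm_real, Real.norm_eq_abs, norm_pow]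
    exact mul_le_of_le_one_right (abs_nonneg _) (pow_le_one₀ (norm_nonneg _) (hχ1 i P₀))
  have h7 : 0 ≤ BB * w2 q d n := by positivity
  linarith

end Pool.Agent.Q277.PX
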