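import Pool.Agent.Q284.PX.Stm
import Pool.Agent.Q24.PS.EB

/-!
# Project PX (helper284): job PX-GBb, and the lemmas for PX-EBb
-/

set_option autoImplicit false

open Finset Polynomial ComplexConjugate
open Pool.Agent.H341R2.Sharp (Mon mem_Mon)

namespace Pool.Agent.Q277.PX

open Pool.Agent.Q284.PS Pool.Agent.Q284.PX Pool.Agent.Q24.PS

section real

theorem grow (b C : ℝ) (hb : 0 < b) : ∃ m₀ : ℕ, ∀ n : ℕ, m₀ ≤ n →
    C * (1 + (n : ℝ)) ^ ((5 : ℝ) / 2) ≤ (3 : ℝ) ^ (b * (n : ℝ)) := by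
  have hl : 0 < Real.log 3 := Real.log_pos (by norm_num)
  have hb' : 0 < b * Real.log 3 := mul_pos hb hl
  have h1 := isLittleO_rpow_exp_pos_mul_atTop ((5 : ℝ) / 2) hb'
  have hc : 0 < ((|C| + 1) * Real.exp (b * Real.log 3))⁻¹ := by positivity
  have h2 := h1.bound hc
  rw [Filter.eventually_atTop] at h2
  obtain ⟨x₀, hx₀⟩ := h2
  refine ⟨⌈x₀⌉₊, fun n hn => ?_⟩
  have h3 : x₀ ≤ 1 + (n : ℝ) := by
    have h4 := Nat.le_ceil x₀
    have h5 : ((⌈x₀⌉₊ : ℕ) : ℝ) ≤ n := by exact_mod_cast hn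
    linarith
  have h4 := hx₀ (1 + (n : ℝ)) h3
  have h5 : 0 ≤ (1 + (n : ℝ)) ^ ((5 : ℝ) / 2) := by positivity
  rw [Real.norm_of_nonneg h5, Real.norm_of_nonneg (Real.exp_pos _).le] at h4
  have h6 : (3 : ℝ) ^ (b * (n : ℝ)) = (Real.exp (b * Real.log 3))⁻¹ *
      Real.exp (b * Real.log 3 * (1 + (n : ℝ))) := by
    rw [Real.rpow_def_of_pos (by norm_num : (0 : ℝ) < 3), ← Real.exp_neg, ← Real.exp_add]
    congr 1
    ring
  have h7 : (|C| + 1) * (1 + (n : ℝ)) ^ ((5 : ℝ) / 2) ≤ (3 : ℝ) ^ (b * (n : ℝ)) := by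
    rw [h6]
    calc (|C| + 1) * (1 + (n : ℝ)) ^ ((5 : ℝ) / 2)
        ≤ (|C| + 1) * (((|C| + 1) * Real.exp (b * Real.log 3))⁻¹ *
          Real.exp (b * Real.log 3 * (1 + (n : ℝ)))) :=
          mul_le_mul_of_nonneg_left h4 (by positivity)
      _ = _ := by
          have h8 : |C| + 1 ≠ 0 := by positivity
          field_simp
  have h8 : C ≤ |C| + 1 := by
    have := le_abs_self C
    linarith
  exact (mul_le_mul_of_nonneg_right h8 h5).trans h7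

theorem key (d : ℕ) (hd : 1 ≤ d) : ∃ m₀ : ℕ, 1 ≤ m₀ ∧ ∀ (q : ℝ), 3 ≤ q → ∀ m k : ℕ, m₀ ≤ m →
    1 ≤ k → ∀ n : ℕ, k * m ≤ n →
    10 ^ 8 * (1 + (n : ℝ)) ^ ((5 : ℝ) / 2) * q ^ (-((n : ℝ) / (36 * d))) ≤ (1 / 2 : ℝ) ^ k := by
  have hdp : (0 : ℝ) < d := by exact_mod_cast hd
  obtain ⟨m₁, hm₁⟩ := grow (1 / (72 * d)) (10 ^ 8) (by positivity)
  refine ⟨max (72 * d) m₁, le_max_of_le_left (by omega), fun q hq m k hm hk n hn => ?_⟩
  have hm1 : 72 * d ≤ m := (le_max_left _ _).trans hm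
  have hm2 : m₁ ≤ m := (le_max_right _ _).trans hm
  have hqp : 0 < q := by linarith
  have hmn : m ≤ n := (Nat.le_mul_of_pos_left m hk).trans hn
  have h1 := hm₁ n (hm2.trans hmn)
  have h2 : (3 : ℝ) ^ (1 / (72 * (d : ℝ)) * (n : ℝ)) ≤ q ^ (1 / (72 * (d : ℝ)) * (n : ℝ)) :=
    Real.rpow_le_rpow (by norm_num) hq (by positivity)
  have h3 : (k : ℝ) ≤ (n : ℝ) / (72 * d) := by
    rw [le_div_iff₀ (by positivity)]
    have : k * (72 * d) ≤ n := (Nat.mul_le_mul_left k hm1).trans hn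
    exact_mod_cast this
  calc 10 ^ 8 * (1 + (n : ℝ)) ^ ((5 : ℝ) / 2) * q ^ (-((n : ℝ) / (36 * d)))
      ≤ q ^ (1 / (72 * (d : ℝ)) * (n : ℝ)) * q ^ (-((n : ℝ) / (36 * d))) :=
        mul_le_mul_of_nonneg_right (h1.trans h2) (by positivity)
    _ = q ^ (-((n : ℝ) / (72 * d))) := by
        rw [← Real.rpow_add hqp]
        congr 1
        field_simp
        ring
    _ ≤ q ^ (-(k : ℝ)) := Real.rpow_le_rpow_of_exponent_le (by linarith) (by linarith)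
    _ = (q⁻¹) ^ k := by
        rw [Real.rpow_neg hqp.le, Real.rpow_natCast, inv_pow]
    _ ≤ (1 / 2 : ℝ) ^ k := by
        refine pow_le_pow_left₀ (by positivity) ?_ k
        rw [one_div]
        exact inv_anti₀ (by norm_num) (by linarith)

theorem w2_nonneg {q : ℝ} (hq : 0 < q) (d n : ℕ) : 0 ≤ w2 q d n := by
  unfold w2
  positivity

theorem w2_shift {q : ℝ} (hq : 0 < q) {d : ℕ} (hd : 1 ≤ d) {i u : ℕ} (hi : 1 ≤ i) :
    q ^ ((1 - 11 / (2 * (d : ℝ))) * (u : ℝ)) * w2 q d i =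
      w2 q d (i + u) * q ^ (-(3 * (u : ℝ) / d)) * (((i + u : ℕ) : ℝ) / i) ^ ((5 : ℝ) / 2) := by
  have hdp : (0 : ℝ) < d := by exact_mod_cast hd
  have hip : (0 : ℝ) < i := by exact_mod_cast hi
  have hnp : (0 : ℝ) < ((i + u : ℕ) : ℝ) := by
    have : 0 < i + u := by omega
    exact_mod_cast this
  unfold w2
  rw [Real.div_rpow hnp.le hip.le]
  have h1 : q ^ ((1 - 11 / (2 * (d : ℝ))) * (u : ℝ)) * q ^ ((1 - 5 / (2 * (d : ℝ))) * (i : ℝ)) =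
      q ^ ((1 - 5 / (2 * (d : ℝ))) * ((i + u : ℕ) : ℝ)) * q ^ (-(3 * (u : ℝ) / d)) := by
    rw [← Real.rpow_add hq, ← Real.rpow_add hq]
    congr 1
    push_cast
    field_simp
    ring
  have h2 : (((i + u : ℕ) : ℝ)) ^ ((5 : ℝ) / 2) ≠ 0 := (Real.rpow_pos_of_pos hnp _).ne'
  have h3 : (i : ℝ) ^ ((5 : ℝ) / 2) ≠ 0 := (Real.rpow_pos_of_pos hip _).ne'
  calc _ = (q ^ ((1 - 11 / (2 * (d : ℝ))) * (u : ℝ)) * q ^ ((1 - 5 / (2 * (d : ℝ))) * (i : ℝ))) /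
        (i : ℝ) ^ ((5 : ℝ) / 2) := by ring
    _ = _ := by
        rw [h1]
        field_simp

theorem w2_zero {q : ℝ} (hq : 0 < q) {d : ℕ} (hd : 1 ≤ d) {n : ℕ} (hn : 1 ≤ n) :
    q ^ ((1 - 11 / (2 * (d : ℝ))) * (n : ℝ)) =
      w2 q d n * q ^ (-(3 * (n : ℝ) / d)) * (n : ℝ) ^ ((5 : ℝ) / 2) := by
  have hdp : (0 : ℝ) < d := by exact_mod_cast hd
  have hnp : (0 : ℝ) < n := by exact_mod_cast hn
  unfold w2
  have h2 : (n : ℝ) ^ ((5 : ℝ) / 2) ≠ 0 := (Real.rpow_pos_of_pos hnp _).ne'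
  have h1 : q ^ ((1 - 11 / (2 * (d : ℝ))) * (n : ℝ)) =
      q ^ ((1 - 5 / (2 * (d : ℝ))) * (n : ℝ)) * q ^ (-(3 * (n : ℝ) / d)) := by
    rw [← Real.rpow_add hq]
    congr 1
    field_simp
    ring
  rw [h1]
  field_simp

/-- the sum over the multiples of the special prime -/
theorem geo (s : Finset ℕ) (n : ℕ) (hs : s ⊆ range (n + 1)) (T : ℕ → ℝ) (A c₀ c : ℝ)
    (hA : 0 ≤ A) (hc : 0 ≤ c) (hc₀ : c ≤ c₀)
    (h0 : T 0 ≤ A * c₀) (hT : ∀ k ∈ s, 1 ≤ k → T k ≤ A * (c * (1 / 2 : ℝ) ^ k)) :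
    ∑ k ∈ s, T k ≤ A * (c₀ + c) := by
  have h1 : ∑ k ∈ s, T k ≤ ∑ k ∈ s, A * ((if k = 0 then c₀ - c else 0) + c * (1 / 2 : ℝ) ^ k) := by
    refine sum_le_sum fun k hk => ?_
    rcases Nat.eq_zero_or_pos k with rfl | hk0
    · simpa using h0
    · rw [if_neg (by omega), zero_add]
      exact hT k hk hk0
  have h2 : ∑ k ∈ s, A * ((if k = 0 then c₀ - c else 0) + c * (1 / 2 : ℝ) ^ k) ≤
      ∑ k ∈ range (n + 1), A * ((if k = 0 then c₀ - c else 0) + c * (1 / 2 : ℝ) ^ k) := by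
    refine sum_le_sum_of_subset_of_nonneg hs fun k _ _ => ?_
    refine mul_nonneg hA (add_nonneg ?_ (by positivity))
    split_ifs
    · linarith
    · exact le_refl _
  refine (h1.trans h2).trans ?_
  rw [← mul_sum]
  refine mul_le_mul_of_nonneg_left ?_ hA
  rw [sum_add_distrib, ← mul_sum, sum_ite_eq' (range (n + 1)) 0 (fun _ => c₀ - c),
    if_pos (mem_range.2 (by omega))]
  have h3 : ∑ k ∈ range (n + 1), (1 / 2 : ℝ) ^ k ≤ 2 := by
    rw [geom_sum_eq (by norm_num)]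
    have : (0 : ℝ) < (1 / 2 : ℝ) ^ (n + 1) := by positivity
    have h4 : ((1 / 2 : ℝ) ^ (n + 1) - 1) / (1 / 2 - 1) = 2 - 2 * (1 / 2 : ℝ) ^ (n + 1) := by
      ring
    rw [h4]
    linarith
  nlinarith

end real

section main

variable {F : Type} [Field F]

theorem AF_one (v : F[X] → ℕ → ℝ) : AF v (1 : F[X]) = 1 := by
  classical
  unfold AF
  rw [UniqueFactorizationMonoid.normalizedFactors_one]
  simp

end main

theorem t_GBb : S_GBa → S_P0R → S_GBb := by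
  rintro ⟨d₀, hGB⟩ hP0
  refine ⟨max d₀ 1, fun d hd => ?_⟩
  have hd0 : d₀ ≤ d := (le_max_left _ _).trans hd
  have hd1 : 1 ≤ d := (le_max_right _ _).trans hd
  have hdp : (0 : ℝ) < d := by exact_mod_cast hd1
  obtain ⟨m₀, hm₀, hkey⟩ := key d hd1
  refine ⟨m₀, fun F _ _ hF K h hK hL N P₀ g a hS hG n hn hnN => ?_⟩
  have hq : 3 ≤ qq F := by
    unfold qq
    exact_mod_cast hF
  have hqp : 0 < qq F := by linarith
  have hB : 0 < BB := by
    unfold BB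
    norm_num
  obtain ⟨q, hqdef⟩ : ∃ q, q = qq F := ⟨_, rfl⟩
  obtain ⟨m, hmdef⟩ : ∃ m, m = P₀.natDegree := ⟨_, rfl⟩
  have hmm : m₀ ≤ m := hmdef ▸ hS.deg
  have hgb := hS.bound
  rw [(hP0 F h P₀ g a hL.zero hS.monic hS.irr hS.zero n).2, ← hqdef, ← hmdef]
  rw [← hqdef, ← hmdef] at hgb
  rw [← hqdef] at hq hqp
  have hw := w2_nonneg hqp d n
  have hnp : (0 : ℝ) < n := by exact_mod_cast hn
  have hT : ∀ i : ℕ, 1 ≤ i → i ≤ N → ∑ f ∈ Mon F i, |AF (Lo h P₀ g0 a) f| ≤ 5 / 2 * BB * w2 q d i := by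
    intro i h1 h2
    rw [hqdef]
    exact (hGB d hd0 F hF K h hK hL N P₀ a hG i h1 h2).1
  have hmain := geo ((range (n + 1)).filter (fun k => k * m ≤ n)) n (filter_subset _ _)
    (fun k => |g k| * ∑ f ∈ Mon F (n - k * m), |AF (Lo h P₀ g0 a) f|) (BB * w2 q d n) (5 / 2) (1 / 10)
    (by positivity) (by norm_num) (by norm_num) ?_ ?_
  · calc _ ≤ BB * w2 q d n * (5 / 2 + 1 / 10) := hmain
      _ ≤ 3 * BB * w2 q d n := by nlinarith [mul_nonneg hB.le hw]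
  · simp only [zero_mul, Nat.sub_zero]
    rw [hS.zero, abs_one, one_mul]
    have := hT n hn hnN
    linarith
  · intro k hk hk1
    rw [mem_filter, mem_range] at hk
    obtain ⟨-, hk2⟩ := hk
    have hb := hgb k
    obtain ⟨u, hu⟩ : ∃ u : ℕ, u = k * m := ⟨_, rfl⟩
    have hu2 : ((k : ℝ) * m) = (u : ℝ) := by rw [hu]; push_cast; ring
    rw [hu2] at hb
    rw [← hu] at hk2
    rw [← hu]
    have hk3 := hkey q hq m k hmm hk1 u (by rw [hu])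
    have hup : (0 : ℝ) ≤ u := Nat.cast_nonneg _
    have h36 : q ^ (-(3 * (u : ℝ) / d)) ≤ q ^ (-((u : ℝ) / (36 * d))) := by
      refine Real.rpow_le_rpow_of_exponent_le (by linarith) ?_
      rw [neg_le_neg_iff, div_le_div_iff₀ (by positivity) hdp]
      nlinarith [mul_nonneg hup hdp.le]
    have hX : 0 ≤ (1 + (u : ℝ)) ^ ((5 : ℝ) / 2) := by positivity
    have hY : 10 ^ 8 * (1 + (u : ℝ)) ^ ((5 : ℝ) / 2) * q ^ (-(3 * (u : ℝ) / d)) ≤ (1 / 2 : ℝ) ^ k :=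
      (mul_le_mul_of_nonneg_left h36 (by positivity)).trans hk3
    rcases Nat.eq_zero_or_pos (n - u) with h0 | h0
    · have hun : u = n := by omega
      rw [h0, Mon_zero, sum_singleton, AF_one, abs_one, mul_one]
      refine hb.trans ?_
      rw [hun] at hY ⊢
      rw [w2_zero hqp hd1 hn]
      have h1 : (n : ℝ) ^ ((5 : ℝ) / 2) ≤ (1 + (n : ℝ)) ^ ((5 : ℝ) / 2) :=
        Real.rpow_le_rpow hnp.le (by linarith) (by norm_num)
      have h2 : q ^ (-(3 * (n : ℝ) / d)) * (n : ℝ) ^ ((5 : ℝ) / 2) ≤ BB * (1 / 10 * (1 / 2 : ℝ) ^ k) := by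
        have h3 : q ^ (-(3 * (n : ℝ) / d)) * (n : ℝ) ^ ((5 : ℝ) / 2) ≤
            q ^ (-(3 * (n : ℝ) / d)) * (1 + (n : ℝ)) ^ ((5 : ℝ) / 2) :=
          mul_le_mul_of_nonneg_left h1 (by positivity)
        have h4 : (0 : ℝ) < (1 / 2 : ℝ) ^ k := by positivity
        unfold BB
        nlinarith
      calc w2 q d n * q ^ (-(3 * (n : ℝ) / d)) * (n : ℝ) ^ ((5 : ℝ) / 2)
          = w2 q d n * (q ^ (-(3 * (n : ℝ) / d)) * (n : ℝ) ^ ((5 : ℝ) / 2)) := by ring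
        _ ≤ w2 q d n * (BB * (1 / 10 * (1 / 2 : ℝ) ^ k)) := mul_le_mul_of_nonneg_left h2 hw
        _ = _ := by ring
    · obtain ⟨i, hi⟩ : ∃ i : ℕ, i = n - u := ⟨_, rfl⟩
      have hin : n = i + u := by omega
      rw [← hi] at h0 ⊢
      have hT1 := hT i h0 (by omega)
      have hip : (0 : ℝ) < i := by exact_mod_cast h0
      have hip1 : (1 : ℝ) ≤ i := by exact_mod_cast h0
      have h1 : |g k| * ∑ f ∈ Mon F i, |AF (Lo h P₀ g0 a) f| ≤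
          q ^ ((1 - 11 / (2 * (d : ℝ))) * (u : ℝ)) * (5 / 2 * BB * w2 q d i) :=
        mul_le_mul hb hT1 (sum_nonneg fun _ _ => abs_nonneg _) (by positivity)
      have h2 := w2_shift (d := d) (u := u) hqp hd1 (show 1 ≤ i from h0)
      have h3 : (((i + u : ℕ) : ℝ) / i) ^ ((5 : ℝ) / 2) ≤ (1 + (u : ℝ)) ^ ((5 : ℝ) / 2) := by
        refine Real.rpow_le_rpow (by positivity) ?_ (by norm_num)
        rw [div_le_iff₀ hip]
        push_cast
        nlinarith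
      rw [← hin] at h2
      have h4 : q ^ (-(3 * (u : ℝ) / d)) * (((n : ℕ) : ℝ) / i) ^ ((5 : ℝ) / 2) ≤
          1 / 10 ^ 8 * (1 / 2 : ℝ) ^ k := by
        rw [← hin] at h3
        have h5 : q ^ (-(3 * (u : ℝ) / d)) * (((n : ℕ) : ℝ) / i) ^ ((5 : ℝ) / 2) ≤
          q ^ (-(3 * (u : ℝ) / d)) * (1 + (u : ℝ)) ^ ((5 : ℝ) / 2) :=
          mul_le_mul_of_nonneg_left h3 (by positivity)
        nlinarith
      calc _ ≤ _ := h1
        _ = 5 / 2 * BB * (q ^ ((1 - 11 / (2 * (d : ℝ))) * (u : ℝ)) * w2 q d i) := by ring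
        _ = 5 / 2 * BB * w2 q d n * (q ^ (-(3 * (u : ℝ) / d)) * ((n : ℝ) / i) ^ ((5 : ℝ) / 2)) := by
            rw [h2]
            ring
        _ ≤ 5 / 2 * BB * w2 q d n * (1 / 10 ^ 8 * (1 / 2 : ℝ) ^ k) :=
            mul_le_mul_of_nonneg_left h4 (by positivity)
        _ ≤ _ := by
            have h6 : (0 : ℝ) < (1 / 2 : ℝ) ^ k := by positivity
            have h7 : 0 ≤ BB * w2 q d n := by positivity
            have h8 : 0 ≤ BB * w2 q d n * (1 / 2 : ℝ) ^ k := by positivity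
            nlinarith

end Pool.Agent.Q277.PX
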